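import Mathlib

/-! The genus needed for a flat `PSL(2,ℝ)` circle bundle of Euler number `e` whose standard
generators are `ε`-close to rotations is `O(|e|/ε)`. -/

open Real Matrix
open scoped MatrixGroups commutatorElement

namespace Pool.Agent.Results.MP_b43922_gt.Linear

/-- The fundamental group of the closed oriented surface of genus `g`. -/
abbrev Surf (g : ℕ) : Type := PresentedGroup
  ({(List.ofFn fun i : Fin g => ⁅FreeGroup.of (i, false), FreeGroup.of (i, true)⁆).prod} :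
    Set (FreeGroup (Fin g × Bool)))

/-- `t ↦ [v t]` identifies `ℝ / 2πℤ` with the projective line, rotation-invariantly. -/
noncomputable def v (t : ℝ) : Fin 2 → ℝ := ![cos (t / 2), sin (t / 2)]

/-- `g` sends the point `[v s]` of the projective line to `[v t]`. -/
def Acts (g : PSL(2, ℝ)) (s t : ℝ) : Prop :=
  ∃ M : SL(2, ℝ), (M : PSL(2, ℝ)) = g ∧ ∃ r : ℝ, r ≠ 0 ∧ M.1 *ᵥ v s = r • v t

/-- `g` is a rotation. -/
def IsRot (g : PSL(2, ℝ)) : Prop :=
  ∃ (M : SL(2, ℝ)) (θ : ℝ), (M : PSL(2, ℝ)) = g ∧ M.1 = !![cos θ, -sin θ; sin θ, cos θ]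

/-- `g` is within sup-distance `ε` of a rotation. -/
def Near (ε : ℝ) (g : PSL(2, ℝ)) : Prop :=
  ∃ h, IsRot h ∧ ∀ s t u : ℝ, Acts g s t → Acts h s u →
    dist (t : AddCircle (2 * π)) (u : AddCircle (2 * π)) ≤ ε

/-- The Euler number of `ρ` is `e`: the product of the commutators of lifts to `ℝ` of the images
of the generators is the translation by `e` full turns. -/
def HasEuler {g : ℕ} (ρ : Surf g →* PSL(2, ℝ)) (e : ℤ) : Prop :=
  ∃ F : Fin g × Bool → (ℝ ≃ₜ ℝ), (∀ x s, Acts (ρ (PresentedGroup.of x)) s (F x s)) ∧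
    ∀ s, (List.ofFn fun i => ⁅F (i, false), F (i, true)⁆).prod s = s + 2 * π * e

def Lf (M : SL(2, ℝ)) (F : ℝ → ℝ) : Prop := ∀ t, ∃ r : ℝ, 0 < r ∧ M.1 *ᵥ v t = r • v (F t)

lemma Lf.mul {M N : SL(2, ℝ)} {F G : ℝ → ℝ} (h : Lf M F) (k : Lf N G) : Lf (M * N) (F ∘ G) := by
  intro t
  obtain ⟨r, hr, e⟩ := k t
  obtain ⟨r', hr', e'⟩ := h (G t)
  refine ⟨r * r', by positivity, ?_⟩
  show (M.1 * N.1) *ᵥ _ = _
  rw [← mulVec_mulVec, e, mulVec_smul, e', smul_smul]
  rfl

lemma Lf.one : Lf 1 id := fun t => ⟨1, one_pos, by simp⟩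

lemma Lf.uniq {M : SL(2, ℝ)} {F G : ℝ → ℝ} (h : Lf M F) (k : Lf M G) (t : ℝ)
    (hb : |F t - G t| < 4 * π) : F t = G t := by
  obtain ⟨r, hr, e⟩ := h t
  obtain ⟨r', hr', e'⟩ := k t
  have e0 := congrFun (e.symm.trans e') 0
  have e1 := congrFun (e.symm.trans e') 1
  simp [v] at e0 e1
  have h1 := sin_sq_add_cos_sq (F t / 2)
  have h2 := sin_sq_add_cos_sq (G t / 2)
  have hrr : r = r' := by
    have : r ^ 2 = r' ^ 2 := by
      linear_combination (-r ^ 2) * h1 + r' ^ 2 * h2 + (r * cos (F t / 2) + r' * cos (G t / 2)) * e0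
        + (r * sin (F t / 2) + r' * sin (G t / 2)) * e1
    exact (pow_left_inj₀ hr.le hr'.le two_ne_zero).mp this
  subst hrr
  have c0 := mul_left_cancel₀ hr.ne' e0
  have c1 := mul_left_cancel₀ hr.ne' e1
  have : cos (F t / 2 - G t / 2) = 1 := by rw [cos_sub, c0, c1]; linear_combination h2
  rw [abs_lt] at hb
  rw [cos_eq_one_iff_of_lt_of_lt (by linarith) (by linarith)] at this
  linarith

/-- lifted group -/
def G : Subgroup (SL(2, ℝ) × (ℝ ≃ₜ ℝ)) where
  carrier := {x | Lf x.1 x.2}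
  one_mem' := Lf.one
  mul_mem' := fun {a b} h k => Lf.mul (F := a.2) (G := b.2) h k
  inv_mem' := by
    rintro ⟨M, F⟩ h t
    obtain ⟨r, hr, e⟩ := h (F.symm t)
    refine ⟨r⁻¹, by positivity, ?_⟩
    simp only [Homeomorph.apply_symm_apply] at e
    have : v t = r⁻¹ • (M.1 *ᵥ v (F.symm t)) := by rw [e, smul_smul, inv_mul_cancel₀ hr.ne', one_smul]
    show (M⁻¹).1 *ᵥ v t = r⁻¹ • v (F.symm t)
    have e2 : (M⁻¹).1 * M.1 = 1 := congrArg Subtype.val (inv_mul_cancel M)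
    rw [this, mulVec_smul, mulVec_mulVec, e2, one_mulVec]

lemma G.ext' {x y : G} (h : x.1.1 = y.1.1) (hb : ∀ t, |x.1.2 t - y.1.2 t| < 4 * π) : x = y :=
  Subtype.ext (Prod.ext h (Homeomorph.ext fun t => Lf.uniq x.2 (h ▸ y.2) t (hb t)))

noncomputable def HM (s φ : ℝ) : SL(2, ℝ) :=
  ⟨!![cosh s + cos φ * sinh s, sin φ * sinh s; sin φ * sinh s, cosh s - cos φ * sinh s], by
    rw [det_fin_two_of]
    linear_combination cosh_sq s - sinh s ^ 2 * sin_sq_add_cos_sq φ⟩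

noncomputable def ζ (s φ t : ℝ) : ℂ := ⟨1 + tanh s * cos (φ - t), tanh s * sin (φ - t)⟩

lemma ζ_re (s φ t : ℝ) : 0 < (ζ s φ t).re := by
  have h1 := abs_tanh_lt_one s
  have h2 := abs_cos_le_one (φ - t)
  have h3 : |tanh s * cos (φ - t)| < 1 := by
    rw [abs_mul]; exact (mul_le_of_le_one_right (abs_nonneg _) h2).trans_lt h1
  have := (abs_lt.mp h3).1
  show 0 < 1 + tanh s * cos (φ - t)
  linarith

noncomputable def HF (s φ t : ℝ) : ℝ := t + 2 * Complex.arg (ζ s φ t)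

lemma HF_bound (s φ t : ℝ) : |HF s φ t - t| ≤ π * |tanh s| := by
  have h0 : ζ s φ t ≠ 0 := fun h => by simpa [h] using ζ_re s φ t
  have hn : 0 < ‖ζ s φ t‖ := norm_pos_iff.mpr h0
  have h1 := mul_abs_le_abs_sin (Complex.abs_arg_le_pi_div_two_iff.mpr (ζ_re s φ t).le)
  have h2 : |sin (Complex.arg (ζ s φ t))| ≤ |tanh s| := by
    rw [Complex.sin_arg, abs_div, abs_of_pos hn, div_le_iff₀ hn]
    refine abs_le_of_sq_le_sq ?_ (by positivity) |>.trans' (le_abs_self _)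
    rw [mul_pow, sq_abs, sq_abs, Complex.sq_norm, Complex.normSq_apply]
    have := sin_sq_add_cos_sq (φ - t)
    simp only [ζ]
    generalize tanh s = a, sin (φ - t) = y, cos (φ - t) = x at *
    have e : a ^ 2 * ((1 + a * x) * (1 + a * x) + a * y * (a * y)) - (a * y) ^ 2
      = (a * x + a ^ 2) ^ 2 := by linear_combination (a ^ 4 - a ^ 2) * this
    nlinarith [sq_nonneg (a * x + a ^ 2)]
  have h3 : |HF s φ t - t| = 2 * |Complex.arg (ζ s φ t)| := by
    rw [HF, add_sub_cancel_left, abs_mul, abs_two]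
  have h4 := mul_le_mul_of_nonneg_left (h1.trans h2) pi_pos.le
  have h5 : π * (2 / π * |Complex.arg (ζ s φ t)|) = 2 * |Complex.arg (ζ s φ t)| := by field_simp
  linarith

lemma HF_lt (s φ t : ℝ) : |HF s φ t - t| < π :=
  (HF_bound s φ t).trans_lt (mul_lt_of_lt_one_right pi_pos (abs_tanh_lt_one s))

lemma HF_cont (s φ : ℝ) : Continuous (HF s φ) := by
  have h : Continuous (ζ s φ) := by
    have : ζ s φ = fun t => ((1 + tanh s * cos (φ - t) : ℝ) : ℂ) +
        ((tanh s * sin (φ - t) : ℝ) : ℂ) * Complex.I := by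
      funext t; apply Complex.ext <;> simp [ζ, -Complex.ofReal_cos, -Complex.ofReal_sin,
        -Complex.ofReal_tanh]
    rw [this]; fun_prop
  refine continuous_id.add (continuous_const.mul (continuous_iff_continuousAt.mpr fun t => ?_))
  exact (Complex.continuousAt_arg (Or.inl (ζ_re s φ t))).comp h.continuousAt

lemma HF_lf (s φ : ℝ) : Lf (HM s φ) (HF s φ) := by
  intro t
  have h0 : ζ s φ t ≠ 0 := fun h => by simpa [h] using ζ_re s φ t
  have hn : 0 < ‖ζ s φ t‖ := norm_pos_iff.mpr h0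
  have hc := cosh_pos s
  refine ⟨cosh s * ‖ζ s φ t‖, by positivity, ?_⟩
  have e : HF s φ t / 2 = t / 2 + Complex.arg (ζ s φ t) := by rw [HF]; ring
  have c1 : ‖ζ s φ t‖ * cos (Complex.arg (ζ s φ t)) = 1 + tanh s * cos (φ - t) := by
    rw [Complex.cos_arg h0]; field_simp; rfl
  have c2 : ‖ζ s φ t‖ * sin (Complex.arg (ζ s φ t)) = tanh s * sin (φ - t) := by
    rw [Complex.sin_arg]; field_simp; rfl
  have c3 : cosh s * tanh s = sinh s := by rw [tanh_eq_sinh_div_cosh]; field_simp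
  have e1 : φ - t = (φ - t / 2) - t / 2 := by ring
  have e2 : cos φ = cos ((φ - t / 2) + t / 2) := by ring_nf
  have e3 : sin φ = sin ((φ - t / 2) + t / 2) := by ring_nf
  rw [e1, cos_sub] at c1
  rw [e1, sin_sub] at c2
  rw [cos_add] at e2
  rw [sin_add] at e3
  have h := sin_sq_add_cos_sq (t / 2)
  ext i
  fin_cases i <;> simp [HM, v, e, mulVec, dotProduct, cos_add, sin_add] <;> rw [e2, e3, ← c3]
  · linear_combination (-cosh s * cos (t / 2)) * c1 + (cosh s * sin (t / 2)) * c2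
  · linear_combination (-cosh s * sin (t / 2)) * c1 - (cosh s * cos (t / 2)) * c2

lemma HM_add (s s' φ : ℝ) : HM s φ * HM s' φ = HM (s + s') φ := by
  have h := sin_sq_add_cos_sq φ
  ext i j
  fin_cases i <;> fin_cases j <;> simp [HM, mul_apply, cosh_add, sinh_add]
  · linear_combination (sinh s * sinh s') * h
  · ring
  · ring
  · linear_combination (sinh s * sinh s') * h

lemma HM_zero (φ : ℝ) : HM 0 φ = 1 := by
  ext i j
  fin_cases i <;> fin_cases j <;> simp [HM]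

lemma HF_inv (s φ t : ℝ) : HF (-s) φ (HF s φ t) = t := by
  have h := (HF_lf (-s) φ).mul (HF_lf s φ)
  rw [HM_add, neg_add_cancel, HM_zero] at h
  refine h.uniq Lf.one t ?_
  have h1 := abs_lt.mp (HF_lt s φ t)
  have h2 := abs_lt.mp (HF_lt (-s) φ (HF s φ t))
  have := pi_pos
  simp only [Function.comp, id]
  rw [abs_lt]; constructor <;> linarith

noncomputable def h (s φ : ℝ) : G :=
  ⟨(HM s φ,
    { toFun := HF s φ
      invFun := HF (-s) φ
      left_inv := HF_inv s φ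
      right_inv := fun t => by simpa using HF_inv (-s) φ t
      continuous_toFun := HF_cont s φ
      continuous_invFun := HF_cont (-s) φ }), HF_lf s φ⟩

noncomputable def RM (θ : ℝ) : SL(2, ℝ) :=
  ⟨!![cos θ, -sin θ; sin θ, cos θ], by
    rw [det_fin_two_of]; linear_combination sin_sq_add_cos_sq θ⟩

noncomputable def rot (θ : ℝ) : G :=
  ⟨(RM θ, Homeomorph.addRight (2 * θ)), fun t => ⟨1, one_pos, by
    have e : (t + 2 * θ) / 2 = t / 2 + θ := by ring
    ext i
    fin_cases i <;> simp [RM, v, e, mulVec, dotProduct, cos_add, sin_add] <;> ring⟩⟩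

lemma h_add (s s' φ : ℝ) : h s φ * h s' φ = h (s + s') φ := by
  refine G.ext' (HM_add s s' φ) fun t => ?_
  have h1 := abs_lt.mp (HF_lt s' φ t)
  have h2 := abs_lt.mp (HF_lt s φ (HF s' φ t))
  have h3 := abs_lt.mp (HF_lt (s + s') φ t)
  have := pi_pos
  show |HF s φ (HF s' φ t) - HF (s + s') φ t| < _
  rw [abs_lt]; constructor <;> linarith

lemma h_zero (φ : ℝ) : h 0 φ = 1 := by
  have := h_add 0 0 φ
  rw [add_zero] at this
  exact mul_eq_left.mp this

lemma h_inv (s φ : ℝ) : (h s φ)⁻¹ = h (-s) φ := by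
  rw [inv_eq_iff_mul_eq_one, h_add, add_neg_cancel, h_zero]

lemma rot_h (s φ : ℝ) : rot (π / 2) * h s φ = h (-s) φ * rot (π / 2) := by
  refine G.ext' ?_ fun t => ?_
  · show RM (π / 2) * HM s φ = HM (-s) φ * RM (π / 2)
    ext i j
    fin_cases i <;> fin_cases j <;> simp [HM, RM, mul_apply] <;> ring_nf
  · have h1 := abs_lt.mp (HF_lt s φ t)
    have h2 := abs_lt.mp (HF_lt (-s) φ (t + 2 * (π / 2)))
    have := pi_pos
    show |HF s φ t + 2 * (π / 2) - HF (-s) φ (t + 2 * (π / 2))| < _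
    rw [abs_lt]; constructor <;> linarith

lemma comm_h (s φ : ℝ) : ⁅rot (π / 2), h s φ⁆ = h (-2 * s) φ := by
  rw [commutatorElement_def, rot_h, mul_inv_cancel_right, h_inv, h_add]
  congr 1; ring

lemma tanh_le (s : ℝ) : |tanh s| ≤ 2 * |s| := by
  have key : ∀ s : ℝ, 0 ≤ s → |tanh s| ≤ 2 * |s| := by
    intro s hs
    have h1 := add_one_le_exp (-s + -s)
    rw [exp_add] at h1
    have h2 : exp s * exp (-s) = 1 := by rw [← exp_add]; simp
    have h3 := exp_pos s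
    have h4 := exp_pos (-s)
    rw [tanh_eq_sinh_div_cosh, abs_div, abs_of_pos (cosh_pos s), div_le_iff₀ (cosh_pos s),
      abs_of_nonneg hs, abs_of_nonneg (sinh_nonneg_iff.mpr hs), sinh_eq, cosh_eq]
    have h5 := mul_le_mul_of_nonneg_left h1 h3.le
    have h6 : exp s * (exp (-s) * exp (-s)) = exp (-s) := by rw [← mul_assoc, h2, one_mul]
    nlinarith [mul_nonneg hs h4.le]
  rcases le_total 0 s with hs | hs
  · exact key s hs
  · simpa using key (-s) (by linarith)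

/-- the commutator of two hyperbolic elements, of trace zero for a suitable `τ` -/
noncomputable def K (τ : ℝ) : G := h τ 0 * h τ (π / 2) * h (-τ) 0 * h (-τ) (π / 2)

lemma K_bound (τ t : ℝ) : |(K τ).1.2 t - t| ≤ 4 * (π * |tanh τ|) := by
  have h1 := abs_le.mp (HF_bound (-τ) (π / 2) t)
  have h2 := abs_le.mp (HF_bound (-τ) 0 (HF (-τ) (π / 2) t))
  have h3 := abs_le.mp (HF_bound τ (π / 2) (HF (-τ) 0 (HF (-τ) (π / 2) t)))
  have h4 := abs_le.mp (HF_bound τ 0 (HF τ (π / 2) (HF (-τ) 0 (HF (-τ) (π / 2) t))))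
  rw [tanh_neg, abs_neg] at h1 h2
  show |HF τ 0 (HF τ (π / 2) (HF (-τ) 0 (HF (-τ) (π / 2) t))) - t| ≤ _
  rw [abs_le]; constructor <;> linarith

lemma K_sq (τ : ℝ) (hτ : sinh τ ^ 4 = 1 / 2) : (K τ * K τ).1.1 = -1 := by
  have hd : det (K τ).1.1.1 = 1 := (K τ).1.1.2
  have ht : (K τ).1.1.1 0 0 + (K τ).1.1.1 1 1 = 0 := by
    have h := cosh_sq τ
    show (HM τ 0 * HM τ (π / 2) * HM (-τ) 0 * HM (-τ) (π / 2)).1 0 0 +
      (HM τ 0 * HM τ (π / 2) * HM (-τ) 0 * HM (-τ) (π / 2)).1 1 1 = 0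
    simp [HM, mul_apply, -cosh_add_sinh, -cosh_sub_sinh, -sinh_add_cosh, -sinh_sub_cosh]
    linear_combination (2 * cosh τ ^ 2 - 2 * sinh τ ^ 2 + 2) * h - 4 * hτ
  rw [det_fin_two] at hd
  refine Subtype.ext ?_
  show (K τ).1.1.1 * (K τ).1.1.1 = -1
  generalize (K τ).1.1.1 = A at hd ht
  ext i j
  fin_cases i <;> fin_cases j <;> simp [mul_apply]
  · linear_combination A 0 0 * ht - hd
  · linear_combination A 0 1 * ht
  · linear_combination A 1 0 * ht
  · linear_combination A 1 1 * ht - hd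

lemma rot_pi : (rot π).1.1 = -1 := by
  ext i j
  fin_cases i <;> fin_cases j <;> simp [rot, RM]

lemma rot_npi : (rot (-π)).1.1 = -1 := by
  ext i j
  fin_cases i <;> fin_cases j <;> simp [rot, RM]

lemma rot_inv : (rot π)⁻¹ = rot (-π) := by
  rw [inv_eq_iff_mul_eq_one]
  refine G.ext' ?_ fun t => ?_
  · show (rot π).1.1 * (rot (-π)).1.1 = 1
    rw [rot_pi, rot_npi]; simp
  · show |t + 2 * -π + 2 * π - t| < _
    have := pi_pos
    rw [abs_lt]; constructor <;> linarith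

lemma K_rot (τ : ℝ) (hτ : sinh τ ^ 4 = 1 / 2) : K τ * K τ = rot π ∨ K τ * K τ = rot (-π) := by
  have hp := pi_pos
  have h0 : |tanh τ| < 3 / 4 := by
    refine abs_lt_of_sq_lt_sq ?_ (by norm_num)
    have h := cosh_sq τ
    have := cosh_pos τ
    rw [tanh_eq_sinh_div_cosh, div_pow, div_lt_iff₀ (by positivity), h]
    nlinarith [sq_nonneg (sinh τ ^ 2 - 1)]
  have hb : ∀ t, |(K τ * K τ).1.2 t - t| < 6 * π := fun t => by
    have h1 := abs_le.mp (K_bound τ t)
    have h2 := abs_le.mp (K_bound τ ((K τ).1.2 t))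
    have h3 := mul_lt_mul_of_pos_left h0 hp
    show |(K τ).1.2 ((K τ).1.2 t) - t| < _
    rw [abs_lt]; constructor <;> linarith
  have e := K_sq τ hτ
  generalize K τ * K τ = W at hb e
  have l1 : Lf W.1.1 fun t => t + 2 * π := by rw [e, ← rot_pi]; exact (rot π).2
  have l2 : Lf W.1.1 fun t => t + 2 * -π := by rw [e, ← rot_npi]; exact (rot (-π)).2
  have hne : ∀ t, W.1.2 t - t ≠ 0 := fun t h => by
    have := Lf.uniq W.2 l1 t (by rw [abs_lt]; constructor <;> linarith)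
    linarith
  have hc : Continuous fun t => W.1.2 t - t := W.1.2.continuous.sub continuous_id
  by_cases hpos : ∀ t, 0 < W.1.2 t - t
  · refine Or.inl (G.ext' (e.trans rot_pi.symm) fun t => ?_)
    have h1 := abs_lt.mp (hb t)
    have h2 := hpos t
    show |W.1.2 t - (t + 2 * π)| < _
    rw [abs_lt]; constructor <;> linarith
  · refine Or.inr (G.ext' (e.trans rot_npi.symm) fun t => ?_)
    push Not at hpos
    obtain ⟨s, hs⟩ := hpos
    have h2 : W.1.2 t - t < 0 := by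
      by_contra h
      obtain ⟨u, hu⟩ := intermediate_value_univ s t hc ⟨hs, not_lt.mp h⟩
      exact hne u hu
    have h1 := abs_lt.mp (hb t)
    show |W.1.2 t - (t + 2 * -π)| < _
    rw [abs_lt]; constructor <;> linarith

def Good (δ : ℝ) (N : ℕ) (x : G) : Prop := ∃ l : List (ℝ × ℝ), l.length = N ∧
  (∀ p ∈ l, |p.1| ≤ δ) ∧ (l.map fun p => ⁅rot (π / 2), h p.1 p.2⁆).prod = x

lemma Good.mul {δ : ℝ} {N M : ℕ} {x y : G} (a : Good δ N x) (b : Good δ M y) :
    Good δ (N + M) (x * y) := by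
  obtain ⟨l, rfl, h1, rfl⟩ := a
  obtain ⟨k, rfl, h2, rfl⟩ := b
  refine ⟨l ++ k, by simp, fun p hp => (List.mem_append.mp hp).elim (h1 p) (h2 p), by simp⟩

lemma Good.pow {δ : ℝ} {N : ℕ} {x : G} (a : Good δ N x) (n : ℕ) : Good δ (N * n) (x ^ n) := by
  induction n with
  | zero => exact ⟨[], by simp, by simp, by simp⟩
  | succ n ih => rw [pow_succ, Nat.mul_succ]; exact ih.mul a

lemma h_pow (s φ : ℝ) (n : ℕ) : h s φ ^ n = h (n * s) φ := by
  induction n with
  | zero => simp [h_zero]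
  | succ n ih => rw [pow_succ, ih, h_add]; congr 1; push_cast; ring

lemma good_h {δ σ : ℝ} (φ : ℝ) {N : ℕ} (hN : 0 < N) (hσ : |σ| ≤ 2 * N * δ) :
    Good δ N (h σ φ) := by
  have hN' : (0 : ℝ) < N := by exact_mod_cast hN
  have : Good δ 1 ⁅rot (π / 2), h (-σ / (2 * N)) φ⁆ := by
    refine ⟨[(-σ / (2 * N), φ)], rfl, ?_, by simp⟩
    simp only [List.mem_singleton, forall_eq]
    rw [abs_div, abs_neg, abs_of_pos (by positivity : (0 : ℝ) < 2 * N), div_le_iff₀ (by positivity)]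
    linarith
  have h2 := this.pow N
  rw [comm_h, h_pow, one_mul] at h2
  have e : (N : ℝ) * (-2 * (-σ / (2 * N))) = σ := by field_simp
  rwa [e] at h2

lemma good_rot (τ : ℝ) (hτ : sinh τ ^ 4 = 1 / 2) {δ : ℝ} {N : ℕ} (hN : 0 < N)
    (hσ : |τ| ≤ 2 * N * δ) (e : ℤ) : Good δ (8 * N * e.natAbs) (rot π ^ e) := by
  have hσ' : |-τ| ≤ 2 * N * δ := by rwa [abs_neg]
  have k1 : Good δ (N + N + N + N) (K τ) :=
    (((good_h 0 hN hσ).mul (good_h _ hN hσ)).mul (good_h 0 hN hσ')).mul (good_h _ hN hσ')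
  have k2 : Good δ (N + N + N + N) (K τ)⁻¹ := by
    have := (((good_h (π / 2) hN hσ).mul (good_h 0 hN hσ)).mul (good_h (π / 2) hN hσ')).mul
      (good_h 0 hN hσ')
    simpa [K, h_inv, mul_assoc] using this
  have e8 : 8 * N = N + N + N + N + (N + N + N + N) := by ring
  have k3 := k1.mul k1
  have k4 := k2.mul k2
  rw [← _root_.mul_inv_rev] at k4
  have k5 : Good δ (8 * N) (rot π) ∧ Good δ (8 * N) (rot π)⁻¹ := by
    rw [e8]
    rcases K_rot τ hτ with h | h
    · rw [h] at k3 k4; exact ⟨k3, k4⟩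
    · rw [h, ← rot_inv] at k3 k4; rw [inv_inv] at k4; exact ⟨k4, k3⟩
  obtain ⟨n, rfl | rfl⟩ := e.eq_nat_or_neg
  · simpa using k5.1.pow n
  · simpa using k5.2.pow n

lemma rot_zpow (e : ℤ) (t : ℝ) : (rot π ^ e).1.2 t = t + 2 * π * e := by
  induction e using Int.induction_on generalizing t with
  | zero => simp
  | succ n ih =>
    rw [_root_.zpow_add_one]
    show (rot π ^ (n : ℤ)).1.2 (t + 2 * π) = _
    rw [ih]; push_cast; ring
  | pred n ih =>
    rw [_root_.zpow_sub_one, rot_inv]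
    show (rot π ^ (-(n : ℤ))).1.2 (t + 2 * -π) = _
    rw [ih]; push_cast; ring

/-- projection to `PSL(2,ℝ)` -/
noncomputable def pr : G →* PSL(2, ℝ) :=
  (QuotientGroup.mk' _).comp ((MonoidHom.fst _ _).comp G.subtype)

lemma acts_pr (x : G) (s : ℝ) : Acts (pr x) s (x.1.2 s) := by
  obtain ⟨r, hr, e⟩ := x.2 s
  exact ⟨x.1.1, rfl, r, hr.ne', e⟩

lemma acts_uniq {g : PSL(2, ℝ)} {s t u : ℝ} (a : Acts g s t) (b : Acts g s u) :
    (t : AddCircle (2 * π)) = u := by
  obtain ⟨M, rfl, r, hr, e⟩ := a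
  obtain ⟨N, hN, r', hr', e'⟩ := b
  have hN' : N⁻¹ * M ∈ Subgroup.center SL(2, ℝ) := QuotientGroup.eq.mp hN
  obtain ⟨c, -, hc⟩ := Matrix.SpecialLinearGroup.mem_center_iff.mp hN'
  have h1 : M.1 = N.1 * scalar (Fin 2) c := by
    rw [hc]; exact congrArg Subtype.val (mul_inv_cancel_left N M).symm
  have h2 : scalar (Fin 2) c *ᵥ v s = c • v s := by
    ext i; simp [mulVec_diagonal]
  rw [h1, ← mulVec_mulVec, h2, mulVec_smul, e'] at e
  have e0 := congrFun e 0
  have e1 := congrFun e 1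
  simp [v] at e0 e1
  have h3 : sin (t / 2 - u / 2) = 0 := by
    rw [sin_sub]
    refine mul_left_cancel₀ hr ?_
    linear_combination sin (u / 2) * e0 - cos (u / 2) * e1
  obtain ⟨n, hn⟩ := sin_eq_zero_iff.mp h3
  rw [← sub_eq_zero, ← AddCircle.coe_sub, AddCircle.coe_eq_zero_iff]
  exact ⟨n, by rw [zsmul_eq_mul]; linarith⟩

lemma near_of {ε : ℝ} (x : G) (θ : ℝ) (hb : ∀ s, |x.1.2 s - (s + 2 * θ)| ≤ ε) : Near ε (pr x) := by
  refine ⟨pr (rot θ), ⟨RM θ, θ, rfl, rfl⟩, fun s t u a b => ?_⟩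
  rw [acts_uniq a (acts_pr x s), acts_uniq b (acts_pr (rot θ) s), dist_eq_norm, ← AddCircle.coe_sub]
  exact (QuotientAddGroup.norm_mk_le_norm).trans (hb s)

theorem result : ∃ C : ℝ, ∀ (e : ℤ) (ε : ℝ), 0 < ε → ε ≤ 1 → ∃ g : ℕ, (g : ℝ) ≤ C * |(e : ℝ)| / ε ∧
    ∃ ρ : Surf g →* PSL(2, ℝ), HasEuler ρ e ∧ ∀ x, Near ε (ρ (PresentedGroup.of x)) := by
  obtain ⟨τ, hτ⟩ : ∃ τ : ℝ, sinh τ ^ 4 = 1 / 2 := by
    refine ⟨arsinh (√(√(1 / 2))), ?_⟩
    rw [sinh_arsinh, show 4 = 2 * 2 from rfl, pow_mul, sq_sqrt (by positivity),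
      sq_sqrt (by positivity)]
  have hp := pi_pos
  refine ⟨8 * (π * |τ| + 2), fun e ε h0 h1 => ?_⟩
  let N : ℕ := ⌈π * |τ| / ε⌉₊ + 1
  have hN1 : π * |τ| / ε ≤ N := (Nat.le_ceil _).trans (by simp [N])
  have hN2 : (N : ℝ) ≤ (π * |τ| + 2) / ε := by
    have := Nat.ceil_lt_add_one (show 0 ≤ π * |τ| / ε by positivity)
    have h2 : 2 ≤ 2 / ε := by rw [le_div_iff₀ h0]; linarith
    rw [add_div]; simp only [N]; push_cast; linarith
  have hσ : |τ| ≤ 2 * N * (ε / (2 * π)) := by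
    rw [div_le_iff₀ h0] at hN1
    have : 2 * N * (ε / (2 * π)) = N * ε / π := by field_simp
    rw [this, le_div_iff₀ hp]; linarith
  obtain ⟨l, hl, hδ, hprod⟩ := good_rot τ hτ (Nat.succ_pos _) hσ e
  let f : Fin l.length × Bool → G := fun x => if x.2 then h (l[x.1]).1 (l[x.1]).2 else rot (π / 2)
  have hf : (List.ofFn fun i => ⁅f (i, false), f (i, true)⁆).prod = rot π ^ e := by
    rw [← hprod]
    congr 1
    simpa [f] using List.ofFn_getElem_eq_map l fun p => ⁅rot (π / 2), h p.1 p.2⁆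
  have hpr : pr (rot π) = 1 := by
    refine (QuotientGroup.eq_one_iff _).mpr (Subgroup.mem_center_iff.mpr fun B => ?_)
    show B * (rot π).1.1 = (rot π).1.1 * B
    rw [rot_pi]; simp
  refine ⟨l.length, ?_, PresentedGroup.toGroup (f := fun x => pr (f x)) ?_,
    ⟨fun x => (f x).1.2, fun x s => ?_, fun s => ?_⟩, fun x => ?_⟩
  · rw [hl]
    push_cast
    rw [Nat.cast_natAbs, Int.cast_abs]
    have := mul_le_mul_of_nonneg_right hN2 (abs_nonneg (e : ℝ))
    have e2 : 8 * (π * |τ| + 2) * |(e : ℝ)| / ε = 8 * ((π * |τ| + 2) / ε * |(e : ℝ)|) := by ring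
    rw [e2]; simp only [N] at this; push_cast at this; linarith
  · rintro _ rfl
    have := congrArg pr hf
    rw [map_zpow, hpr, _root_.one_zpow, map_list_prod, List.map_ofFn] at this
    rw [map_list_prod, List.map_ofFn, ← this]
    congr 2
    funext i
    simp [map_commutatorElement]
  · rw [PresentedGroup.toGroup.of]; exact acts_pr _ s
  · rw [← rot_zpow, ← hf]
    have := map_list_prod ((MonoidHom.snd _ _).comp G.subtype)
      (List.ofFn fun i => ⁅f (i, false), f (i, true)⁆)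
    rw [List.map_ofFn] at this
    refine congrFun (congrArg _ (this.trans ?_).symm) s
    congr 2
  · rw [PresentedGroup.toGroup.of]
    obtain ⟨i, _ | _⟩ := x
    · refine near_of _ (π / 2) fun s => ?_
      show |s + 2 * (π / 2) - (s + 2 * (π / 2))| ≤ ε
      simp [h0.le]
    · refine near_of _ 0 fun s => ?_
      show |HF (l[i]).1 (l[i]).2 s - (s + 2 * 0)| ≤ ε
      rw [mul_zero, add_zero]
      have h2 := hδ l[i] (List.getElem_mem _)
      have h3 := mul_le_mul_of_nonneg_left ((tanh_le _).trans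
        (mul_le_mul_of_nonneg_left h2 zero_le_two)) hp.le
      have e3 : π * (2 * (ε / (2 * π))) = ε := by field_simp
      exact (HF_bound _ _ _).trans (h3.trans_eq e3)

end Pool.Agent.Results.MP_b43922_gt.Linear
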